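import Mathlib

namespace Pool.Agent.Results.MP_5e7574_co.MobiusKantor

open scoped LinearAlgebra.Projectivization
open Projectivization Matrix Filter

/-- The number of label-preserving injective homomorphisms from the bipartite graph
`(V₁, V₂, E)` to the point-line incidence graph of the projective plane over `K`. -/
noncomputable def inj (V₁ V₂ : Type) (E : V₁ → V₂ → Prop) (K : Type) [Field K] : ℕ :=
  Nat.card {fg : (V₁ → ℙ K (Fin 3 → K)) × (V₂ → ℙ K (Fin 3 → K)) //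
    Function.Injective fg.1 ∧ Function.Injective fg.2 ∧
      ∀ a b, E a b → Projectivization.orthogonal (fg.1 a) (fg.2 b)}

/-- `log_p` of the count, with `log_p 0 = -∞`. -/
noncomputable def logInj (V₁ V₂ : Type) (E : V₁ → V₂ → Prop) (p : ℕ) (hp : p.Prime) : EReal :=
  haveI : Fact p.Prime := ⟨hp⟩
  if inj V₁ V₂ E (ZMod p) = 0 then ⊥
  else ((Real.logb p (inj V₁ V₂ E (ZMod p)) : ℝ) : EReal)

def MK (i j : Fin 8) : Prop := i = j ∨ i = j + 1 ∨ i = j + 3

instance : DecidableRel MK := fun i j => by unfold MK; infer_instance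

section
variable {K : Type} [Field K]

lemma det_zero (l x y z : Fin 3 → K) (hl : l ≠ 0) (hx : x ⬝ᵥ l = 0) (hy : y ⬝ᵥ l = 0)
    (hz : z ⬝ᵥ l = 0) :
    x 0 * (y 1 * z 2 - y 2 * z 1) - x 1 * (y 0 * z 2 - y 2 * z 0)
      + x 2 * (y 0 * z 1 - y 1 * z 0) = 0 := by
  simp only [dotProduct, Fin.sum_univ_three] at hx hy hz
  by_contra h
  apply hl
  ext i
  fin_cases i
  · apply mul_left_cancel₀ h
    simp only [Pi.zero_apply, mul_zero]
    show _ * l 0 = 0
    linear_combination (y 1 * z 2 - y 2 * z 1) * hx - (x 1 * z 2 - x 2 * z 1) * hy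
      + (x 1 * y 2 - x 2 * y 1) * hz
  · apply mul_left_cancel₀ h
    simp only [Pi.zero_apply, mul_zero]
    show _ * l 1 = 0
    linear_combination -(y 0 * z 2 - y 2 * z 0) * hx + (x 0 * z 2 - x 2 * z 0) * hy
      - (x 0 * y 2 - x 2 * y 0) * hz
  · apply mul_left_cancel₀ h
    simp only [Pi.zero_apply, mul_zero]
    show _ * l 2 = 0
    linear_combination (y 0 * z 1 - y 1 * z 0) * hx - (x 0 * z 1 - x 1 * z 0) * hy
      + (x 0 * y 1 - x 1 * y 0) * hz

lemma coord_zero (a b c l x y z : Fin 3 → K) (hl : l ≠ 0) (hx : x ⬝ᵥ l = 0) (hy : y ⬝ᵥ l = 0)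
    (hz : z ⬝ᵥ l = 0) :
    (x ⬝ᵥ a) * ((y ⬝ᵥ b) * (z ⬝ᵥ c) - (y ⬝ᵥ c) * (z ⬝ᵥ b))
      - (x ⬝ᵥ b) * ((y ⬝ᵥ a) * (z ⬝ᵥ c) - (y ⬝ᵥ c) * (z ⬝ᵥ a))
      + (x ⬝ᵥ c) * ((y ⬝ᵥ a) * (z ⬝ᵥ b) - (y ⬝ᵥ b) * (z ⬝ᵥ a)) = 0 := by
  have h := det_zero l x y z hl hx hy hz
  simp only [dotProduct, Fin.sum_univ_three]
  linear_combination (a 0 * (b 1 * c 2 - b 2 * c 1) - a 1 * (b 0 * c 2 - b 2 * c 0)
      + a 2 * (b 0 * c 1 - b 1 * c 0)) * h

lemma root_of_config (f g : Fin 8 → ℙ K (Fin 3 → K)) (hf : Function.Injective f)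
    (hg : Function.Injective g) (hE : ∀ a b, MK a b → orthogonal (f a) (g b)) :
    ∃ t : K, t ^ 2 + t + 1 = 0 := by
  have hN : ∀ a b, ¬ MK a b → ¬ orthogonal (f a) (g b) := by
    intro a b hab ho
    have : ∃ a' b', MK a b' ∧ MK a' b' ∧ MK a' b ∧ a ≠ a' ∧ b ≠ b' := by
      clear ho; revert hab; revert a b; decide
    obtain ⟨a', b', h1, h2, h3, h4, h5⟩ := this
    rcases Configuration.ofField.eq_or_eq_of_orthogonal ho (hE _ _ h3) (hE _ _ h1) (hE _ _ h2)
      with h | h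
    · exact h4 (hf h)
    · exact h5 (hg h)
  have key : ∀ a b, orthogonal (f a) (g b) ↔ (f a).rep ⬝ᵥ (g b).rep = 0 := by
    intro a b
    conv_lhs => rw [← mk_rep (f a), ← mk_rep (g b)]
    exact orthogonal_mk _ _
  have Z : ∀ a b, MK a b → (f a).rep ⬝ᵥ (g b).rep = 0 := fun a b h => (key a b).1 (hE a b h)
  have N : ∀ a b, ¬ MK a b → (f a).rep ⬝ᵥ (g b).rep ≠ 0 :=
    fun a b h h' => hN a b h ((key a b).2 h')
  have C := fun (j x y z : Fin 8) (hx : MK x j) (hy : MK y j) (hz : MK z j) =>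
    coord_zero (g 1).rep (g 7).rep (g 0).rep (g j).rep (f x).rep (f y).rep (f z).rep
      (rep_nonzero _) (Z _ _ hx) (Z _ _ hy) (Z _ _ hz)
  have e2 := C 2 2 3 5 (by decide) (by decide) (by decide)
  have e3 := C 3 3 4 6 (by decide) (by decide) (by decide)
  have e4 := C 4 4 5 7 (by decide) (by decide) (by decide)
  have e5 := C 5 0 5 6 (by decide) (by decide) (by decide)
  have e6 := C 6 1 6 7 (by decide) (by decide) (by decide)
  rw [Z 2 1 (by decide), Z 2 7 (by decide)] at e2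
  rw [Z 3 0 (by decide), Z 4 1 (by decide)] at e3
  rw [Z 4 1 (by decide), Z 7 7 (by decide)] at e4
  rw [Z 0 7 (by decide), Z 0 0 (by decide)] at e5
  rw [Z 1 1 (by decide), Z 1 0 (by decide)] at e6
  have n0 := N 0 1 (by decide)
  have n1 := N 1 7 (by decide)
  have n2 := N 2 0 (by decide)
  have na3 := N 3 1 (by decide)
  have nb3 := N 3 7 (by decide)
  have nb4 := N 4 7 (by decide)
  have nc4 := N 4 0 (by decide)
  have na5 := N 5 1 (by decide)
  have nb6 := N 6 7 (by decide)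
  have nc6 := N 6 0 (by decide)
  have na7 := N 7 1 (by decide)
  have nc7 := N 7 0 (by decide)
  generalize (f 0).rep ⬝ᵥ (g 1).rep = α at *
  generalize (f 1).rep ⬝ᵥ (g 7).rep = β at *
  generalize (f 2).rep ⬝ᵥ (g 0).rep = γ at *
  generalize (f 3).rep ⬝ᵥ (g 1).rep = a3 at *
  generalize (f 3).rep ⬝ᵥ (g 7).rep = b3 at *
  generalize (f 4).rep ⬝ᵥ (g 7).rep = b4 at *
  generalize (f 4).rep ⬝ᵥ (g 0).rep = c4 at *
  generalize (f 5).rep ⬝ᵥ (g 1).rep = a5 at *
  generalize (f 5).rep ⬝ᵥ (g 7).rep = b5 at *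
  generalize (f 5).rep ⬝ᵥ (g 0).rep = c5 at *
  generalize (f 6).rep ⬝ᵥ (g 1).rep = a6 at *
  generalize (f 6).rep ⬝ᵥ (g 7).rep = b6 at *
  generalize (f 6).rep ⬝ᵥ (g 0).rep = c6 at *
  generalize (f 7).rep ⬝ᵥ (g 1).rep = a7 at *
  generalize (f 7).rep ⬝ᵥ (g 0).rep = c7 at *
  have h2 : b5 = b3 * a5 / a3 := by
    field_simp
    apply mul_left_cancel₀ n2
    linear_combination e2
  have h6 : a6 = c6 * a7 / c7 := by
    field_simp
    apply mul_left_cancel₀ n1
    linear_combination -e6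
  have h5 : c5 = b5 * c6 / b6 := by
    field_simp
    apply mul_left_cancel₀ n0
    linear_combination -e5
  subst h6 h5
  subst h2
  set t := a7 * b3 * c4 / (a3 * b4 * c7) with ht
  have h3 : b6 * c4 = b4 * c6 * (1 + t) := by
    rw [ht]
    field_simp
    field_simp at e3
    linear_combination -e3
  have h4 : (1 + t) * (b6 * c4) = t * (b4 * c6) := by
    rw [ht]
    field_simp
    field_simp at e4
    apply mul_left_cancel₀ na5
    linear_combination -e4
  refine ⟨t, ?_⟩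
  rw [h3] at h4
  apply mul_left_cancel₀ (mul_ne_zero nb4 nc6)
  linear_combination h4

lemma config_of_root (d : K) (hd : d ^ 2 + d + 1 = 0) :
    ∃ f g : Fin 8 → ℙ K (Fin 3 → K), Function.Injective f ∧ Function.Injective g ∧
      ∀ a b, MK a b → orthogonal (f a) (g b) := by
  have h0 : d ≠ 0 := by rintro rfl; simp at hd
  have h1 : d + 1 ≠ 0 := by
    intro h
    have : d = -1 := by linear_combination h
    subst this
    norm_num at hd
  have h1' : 1 + d ≠ 0 := by rwa [add_comm]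
  let P : Fin 8 → Fin 3 → K := ![![1,0,0], ![0,1,0], ![0,0,1], ![1,1,0], ![0,1,1],
    ![d,d,1+d], ![d,d+1,1], ![d,0,1]]
  let L : Fin 8 → Fin 3 → K := ![![0,0,1], ![1,0,0], ![1,-1,0], ![1,-1,1], ![1,d,-d],
    ![0,1,-(d+1)], ![1,0,-d], ![0,1,0]]
  have h2 : -1 + -d ≠ 0 := by
    intro h; apply h1; linear_combination -h
  have h4 : d + d * d + -((1 + d) * d) = 0 := by ring
  have h5 : d + (1 + d) * (-1 + -d) = 0 := by linear_combination -hd
  have h3 : d + -((1 + d) * d) ≠ 0 := by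
    have : d + -((1 + d) * d) = d + 1 := by linear_combination -hd
    rw [this]; exact h1
  have hPL : ∀ a b, P a ⬝ᵥ L b = 0 ↔ MK a b := by
    intro a b
    fin_cases a <;> fin_cases b <;>
      simp +decide [P, L, dotProduct, Fin.sum_univ_three, h0, h1, h1', h2, h3, h4, h5]
  have hP : ∀ a, P a ≠ 0 := by
    intro a h
    have : ∃ b, ¬ MK a b := by clear h; revert a; decide
    obtain ⟨b, hb⟩ := this
    exact hb ((hPL a b).1 (by simp [h]))
  have hL : ∀ b, L b ≠ 0 := by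
    intro b h
    have : ∃ a, ¬ MK a b := by clear h; revert b; decide
    obtain ⟨a, ha⟩ := this
    exact ha ((hPL a b).1 (by simp [h]))
  have hO : ∀ a b, orthogonal (mk K (P a) (hP a)) (mk K (L b) (hL b)) ↔ MK a b := by
    intro a b
    rw [orthogonal_mk, hPL]
  refine ⟨fun a => mk K (P a) (hP a), fun b => mk K (L b) (hL b), ?_, ?_,
    fun a b h => (hO a b).2 h⟩
  · intro a a' h
    have h' : ∀ b, MK a b ↔ MK a' b := by
      intro b
      rw [← hO, ← hO]
      simp only at h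
      rw [h]
    clear h; revert h'; revert a a'; decide
  · intro b b' h
    have h' : ∀ a, MK a b ↔ MK a b' := by
      intro a
      rw [← hO, ← hO]
      simp only at h
      rw [h]
    clear h; revert h'; revert b b'; decide

end

lemma inj_eq_zero (p : ℕ) [Fact p.Prime] (h : p % 3 = 2) :
    inj (Fin 8) (Fin 8) MK (ZMod p) = 0 := by
  unfold inj
  rw [Nat.card_eq_zero]
  left
  refine ⟨fun ⟨⟨f, g⟩, hf, hg, hE⟩ => ?_⟩
  obtain ⟨t, ht⟩ := root_of_config f g hf hg hE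
  have h3 : t ^ 3 = 1 := by linear_combination (t - 1) * ht
  have h0 : t ≠ 0 := by rintro rfl; simp at ht
  have hp : t ^ (p - 1) = 1 := ZMod.pow_card_sub_one_eq_one h0
  obtain ⟨k, hk⟩ : ∃ k, p - 1 = 3 * k + 1 := ⟨(p - 1) / 3, by omega⟩
  rw [hk, pow_succ, pow_mul, h3, one_pow, one_mul] at hp
  subst hp
  have : ((3 : ℕ) : ZMod p) = 0 := by push_cast; linear_combination ht
  rw [ZMod.natCast_eq_zero_iff] at this
  have := (Nat.prime_dvd_prime_iff_eq Fact.out Nat.prime_three).1 this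
  omega

lemma inj_ne_zero (p : ℕ) [Fact p.Prime] (h : p % 3 = 1) :
    inj (Fin 8) (Fin 8) MK (ZMod p) ≠ 0 := by
  have hp : p.Prime := Fact.out
  have hd : 3 ∣ Fintype.card (ZMod p)ˣ := by
    rw [ZMod.card_units]; omega
  haveI : Fact (Nat.Prime 3) := ⟨Nat.prime_three⟩
  obtain ⟨u, hu⟩ := exists_prime_orderOf_dvd_card 3 hd
  have hu1 : u ≠ 1 := by rintro rfl; simp at hu
  have hu3 : u ^ 3 = 1 := by rw [← hu]; exact pow_orderOf_eq_one u
  have h1 : (u : ZMod p) - 1 ≠ 0 := by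
    intro h'
    apply hu1
    ext
    rw [sub_eq_zero] at h'
    simpa using h'
  have h3 : (u : ZMod p) ^ 3 = 1 := by simpa using congrArg Units.val hu3
  have hr : (u : ZMod p) ^ 2 + u + 1 = 0 := by
    apply mul_left_cancel₀ h1
    linear_combination h3
  obtain ⟨f, g, hf, hg, hE⟩ := config_of_root _ hr
  unfold inj
  rw [Nat.card_ne_zero]
  exact ⟨⟨⟨(f, g), hf, hg, hE⟩⟩, inferInstance⟩

lemma freq (a : ℕ) (ha : a = 1 ∨ a = 2) : ∃ᶠ n in atTop, Nat.nth Nat.Prime n % 3 = a := by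
  rw [frequently_atTop]
  intro N
  have hu : IsUnit ((a : ℕ) : ZMod 3) := by
    rcases ha with rfl | rfl <;> decide
  obtain ⟨p, hp1, hp2, hp3⟩ := Nat.forall_exists_prime_gt_and_eq_mod hu (Nat.nth Nat.Prime N)
  refine ⟨Nat.count Nat.Prime p, ?_, ?_⟩
  · by_contra hlt
    push Not at hlt
    have h2 : Nat.nth Nat.Prime (Nat.count Nat.Prime p) < Nat.nth Nat.Prime N :=
      Nat.nth_strictMono Nat.infinite_setOfPred_prime hlt
    rw [Nat.nth_count hp2] at h2
    omega
  · rw [Nat.nth_count hp2]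
    have := (ZMod.natCast_eq_natCast_iff' p a 3).1 hp3
    omega

/-- There is a finite bipartite graph `H` with an edge such that `log_p inj(H, G_p)`, along the
primes in increasing order, has no limit in the extended reals. -/
theorem result :
    ∃ (m n : ℕ) (E : Fin m → Fin n → Prop), (∃ a b, E a b) ∧
      ¬ ∃ L : EReal, Tendsto
        (fun k : ℕ => logInj (Fin m) (Fin n) E (Nat.nth Nat.Prime k) (Nat.prime_nth_prime k))
        atTop (nhds L) := by
  refine ⟨8, 8, MK, ⟨0, 0, Or.inl rfl⟩, ?_⟩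
  rintro ⟨L, hL⟩
  have h1 : L ∈ ({⊥} : Set EReal) := by
    refine isClosed_singleton.mem_of_frequently_of_tendsto ?_ hL
    refine (freq 2 (Or.inr rfl)).mono fun k hk => ?_
    haveI : Fact (Nat.nth Nat.Prime k).Prime := ⟨Nat.prime_nth_prime k⟩
    simp only [logInj, Set.mem_singleton_iff]
    rw [if_pos (inj_eq_zero _ hk)]
  have h2 : L ∈ Set.Ici (0 : EReal) := by
    refine isClosed_Ici.mem_of_frequently_of_tendsto ?_ hL
    refine (freq 1 (Or.inl rfl)).mono fun k hk => ?_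
    haveI : Fact (Nat.nth Nat.Prime k).Prime := ⟨Nat.prime_nth_prime k⟩
    have hne := inj_ne_zero _ hk
    simp only [logInj, Set.mem_Ici]
    rw [if_neg hne]
    have : 0 ≤ Real.logb (Nat.nth Nat.Prime k)
        (inj (Fin 8) (Fin 8) MK (ZMod (Nat.nth Nat.Prime k))) := by
      apply Real.logb_nonneg
      · exact_mod_cast (Nat.prime_nth_prime k).one_lt
      · exact_mod_cast Nat.one_le_iff_ne_zero.2 hne
    exact_mod_cast this
  rw [Set.mem_singleton_iff] at h1
  subst h1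
  simp at h2

end Pool.Agent.Results.MP_5e7574_co.MobiusKantor
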